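import Mathlib

namespace Pool.Agent.Results.MP_7acd66_nt.Odd815634435

open Finset

/-- One step of the greedy subtraction: subtract the divisor `d` from the remainder `r` if
`r ≥ d`, and leave `r` unchanged otherwise. -/
def step (r d : ℕ) : ℕ := if d ≤ r then r - d else r

/-- The perfect deficiency `pd(n)`: start with the remainder `n` and run through all the positive
divisors of `n` in increasing order, applying `step` each time. -/
def pd (n : ℕ) : ℕ := (n.divisors.sort (· ≤ ·)).foldl step n

lemma foldl_step_of_sum_le (l : List ℕ) (r : ℕ) (h : l.sum ≤ r) :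
    l.foldl step r = r - l.sum := by
  induction l generalizing r with
  | nil => simp
  | cons d l ih =>
    rw [List.sum_cons] at h
    rw [List.foldl_cons, List.sum_cons]
    have : step r d = r - d := by
      unfold step
      rw [if_pos (by omega)]
    rw [this, ih (r - d) (by omega)]
    omega

/-- If the proper divisors of `n` have sum `s ≤ n` with `n - s < n`, then `pd n = n - s`. -/
lemma pd_eq {n : ℕ} (hn : 1 < n) (h : ∑ d ∈ n.properDivisors, d ≤ n) :
    pd n = n - ∑ d ∈ n.properDivisors, d := by
  have h0 : n ≠ 0 := by omega
  have hsort : n.divisors.sort (· ≤ ·) = n.properDivisors.sort (· ≤ ·) ++ [n] := by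
    apply List.Perm.eq_of_pairwise' (r := (· ≤ ·))
    · exact Finset.pairwise_sort _ _
    · rw [List.pairwise_append]
      refine ⟨Finset.pairwise_sort _ _, List.pairwise_singleton _ _, ?_⟩
      intro a ha b hb
      rw [List.mem_singleton] at hb
      rw [Finset.mem_sort] at ha
      rw [hb]
      exact (Nat.mem_properDivisors.mp ha).2.le
    · rw [List.perm_ext_iff_of_nodup (Finset.sort_nodup _ _)]
      · intro a
        rw [Finset.mem_sort, List.mem_append, Finset.mem_sort, List.mem_singleton,
          ← Nat.insert_self_properDivisors h0, mem_insert]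
        tauto
      · rw [List.nodup_append]
        refine ⟨Finset.sort_nodup _ _, List.nodup_singleton _, ?_⟩
        intro a ha b hb
        rw [List.mem_singleton] at hb
        rw [Finset.mem_sort] at ha
        have := (Nat.mem_properDivisors.mp ha).2
        omega
  have hsum : (n.properDivisors.sort (· ≤ ·)).sum = ∑ d ∈ n.properDivisors, d := by
    rw [← Finset.sum_toList n.properDivisors]
    exact (List.Perm.sum_eq (Finset.sort_perm_toList _ _))
  have hpos : 0 < ∑ d ∈ n.properDivisors, d := by
    apply Finset.sum_pos (fun d hd => Nat.pos_of_mem_properDivisors hd)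
    exact ⟨1, Nat.mem_properDivisors.mpr ⟨one_dvd _, hn⟩⟩
  unfold pd
  rw [hsort, List.foldl_append, foldl_step_of_sum_le (n.properDivisors.sort (· ≤ ·)) n
    (by rw [hsum]; exact h), hsum, List.foldl_cons, List.foldl_nil]
  unfold step
  rw [if_neg (by omega)]

lemma sum_divisors_815634435 : ∑ d ∈ Nat.divisors 815634435, d = 1631268864 := by
  have hp : ∀ p : ℕ, p.Prime → ∑ d ∈ Nat.divisors p, d = p + 1 := by
    intro p hp
    rw [hp.divisors, Finset.sum_pair hp.one_lt.ne]
    omega
  have e : 815634435 = 3 * (5 * (7 * (11 * (547 * 1291)))) := by norm_num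
  rw [e, Nat.Coprime.sum_divisors_mul (by norm_num), Nat.Coprime.sum_divisors_mul (by norm_num),
    Nat.Coprime.sum_divisors_mul (by norm_num), Nat.Coprime.sum_divisors_mul (by norm_num),
    Nat.Coprime.sum_divisors_mul (by norm_num),
    hp 3 (by norm_num), hp 5 (by norm_num), hp 7 (by norm_num), hp 11 (by norm_num),
    hp 547 (by norm_num), hp 1291 (by norm_num)]

/-- `815634435` is an odd number greater than `1155` whose perfect deficiency is `6 ≤ 10`. -/
theorem result : 1155 < 815634435 ∧ Odd 815634435 ∧ pd 815634435 = 6 := by
  refine ⟨by norm_num, by decide, ?_⟩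
  have h1 : ∑ d ∈ Nat.properDivisors 815634435, d = 815634429 := by
    have := Nat.sum_divisors_eq_sum_properDivisors_add_self (n := 815634435)
    rw [sum_divisors_815634435] at this
    omega
  rw [pd_eq (by norm_num) (by rw [h1]; norm_num), h1]

end Pool.Agent.Results.MP_7acd66_nt.Odd815634435
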